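import Pool.Agent.H27.CAL.Stmts2

/-! # Project CAL, module INC: incomparability -/

open scoped BigOperators ENNReal Topology
open Filter

namespace CAL

theorem inc_mm_ge (j : ℕ) : (j : ℝ) ≤ mm j := by
  have h1 : j < 2 ^ j := Nat.lt_two_pow_self
  have h2 : 2 ^ j < 4 ^ (2 ^ j) :=
    lt_of_lt_of_le (Nat.lt_two_pow_self (n := 2 ^ j)) (Nat.pow_le_pow_left (by norm_num) _)
  have h3 : (j : ℝ) < ((4 ^ (2 ^ j) : ℕ) : ℝ) := by exact_mod_cast lt_trans h1 h2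
  unfold mm
  push_cast at h3
  exact h3.le

section
variable {𝕜 : Type*} [RCLike 𝕜] {A : Type*} [PartialOrder A] {Y : Type*} [NormedAddCommGroup Y]
  [NormedSpace 𝕜 Y] {τ : TreeLev A}

theorem inc_ris_s_mono {D : Dat 𝕜 Y τ} {C : ℝ} {x : ℕ → D.X} {s t j : ℕ → ℕ}
    (h : D.IsRIS C x s t j) : StrictMono s :=
  strictMono_nat_of_lt_succ fun k => lt_of_lt_of_le (h.st k) (h.ts k)

theorem inc_re_sum {E : Type*} [NormedAddCommGroup E] [NormedSpace 𝕜 E] (Λ : E →L[𝕜] 𝕜) (n : ℕ)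
    (l : ℕ → ℝ) (v : ℕ → E) : RCLike.re (Λ (∑ r ∈ Finset.range n, (l r : 𝕜) • v r)) =
      ∑ r ∈ Finset.range n, l r * RCLike.re (Λ (v r)) := by
  rw [map_sum, map_sum]
  refine Finset.sum_congr rfl fun r _ => ?_
  rw [map_smul, smul_eq_mul, RCLike.re_ofReal_mul]

/-- functionals norming the tails -/
theorem inc_functional (D : Dat 𝕜 Y τ) (N : ℕ) (v : D.X) :
    ∃ f : D.X →L[𝕜] 𝕜, ‖f‖ ≤ 1 ∧ (∀ m ≤ N, ∀ x, f (D.PX m x) = 0) ∧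
      RCLike.re (f v) = ‖v - D.PX N v‖ / 3 := by
  obtain ⟨g, hg1, hg2⟩ := exists_dual_vector'' 𝕜 (v - D.PX N v)
  refine ⟨((3 : ℝ)⁻¹ : 𝕜) • g.comp (ContinuousLinearMap.id 𝕜 D.X - D.PX N), ?_, ?_, ?_⟩
  · refine ContinuousLinearMap.opNorm_le_bound _ zero_le_one fun x => ?_
    have h1 : ‖x - D.PX N x‖ ≤ 3 * ‖x‖ := by
      calc ‖x - D.PX N x‖ ≤ ‖x‖ + ‖D.PX N x‖ := norm_sub_le _ _
        _ ≤ ‖x‖ + 2 * ‖x‖ := by gcongr; exact D.norm_PX_le N x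
        _ = 3 * ‖x‖ := by ring
    have h2 : ‖g (x - D.PX N x)‖ ≤ 3 * ‖x‖ := by
      calc ‖g (x - D.PX N x)‖ ≤ ‖g‖ * ‖x - D.PX N x‖ := g.le_opNorm _
        _ ≤ 1 * ‖x - D.PX N x‖ := by gcongr
        _ ≤ 3 * ‖x‖ := by rw [one_mul]; exact h1
    simp only [_root_.smul_apply, ContinuousLinearMap.comp_apply,
      _root_.sub_apply, ContinuousLinearMap.id_apply, norm_smul]
    have h3 : ‖((3 : ℝ)⁻¹ : 𝕜)‖ = 3⁻¹ := by
      rw [norm_inv, RCLike.norm_ofReal]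
      norm_num
    rw [h3]
    linarith
  · intro m hm x
    simp only [_root_.smul_apply, ContinuousLinearMap.comp_apply,
      _root_.sub_apply, ContinuousLinearMap.id_apply]
    rw [D.PX_PX, min_eq_right hm, sub_self, map_zero, smul_zero]
  · simp only [_root_.smul_apply, ContinuousLinearMap.comp_apply,
      _root_.sub_apply, ContinuousLinearMap.id_apply]
    rw [hg2, smul_eq_mul]
    have : ((3 : ℝ)⁻¹ : 𝕜) * ((‖v - D.PX N v‖ : ℝ) : 𝕜) = ((‖v - D.PX N v‖ / 3 : ℝ) : 𝕜) := by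
      push_cast
      ring
    rw [this, RCLike.ofReal_re]

theorem cal_inc (D : Dat 𝕜 Y τ) {A' : Type*} [PartialOrder A'] {Y' : Type*}
    [NormedAddCommGroup Y'] [NormedSpace 𝕜 Y'] {τ' : TreeLev A'} (D' : Dat 𝕜 Y' τ')
    (hSUB : SUBStmt D) (hCB : CBStmt D') (hRAV : RAVStmt D) (hRN : RNULLStmt D) :
    INCStmt D D' := by
  intro Ch F w w' hR hR' hdisj R x hx N hN
  by_contra hnot
  rw [Metric.tendsto_atTop] at hnot
  push Not at hnot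
  obtain ⟨δ, hδ, hfreq⟩ := hnot
  obtain ⟨φ, hφ, hφ2⟩ := Filter.extraction_of_frequently_atTop (P := fun k =>
    δ ≤ ‖R (x k) - D'.PX (N k) (R (x k))‖) (by
      rw [Filter.frequently_atTop]
      intro a
      obtain ⟨b, hb, hb2⟩ := hfreq a
      exact ⟨b, hb, by rwa [dist_zero_right] at hb2⟩)
  obtain ⟨C, s, t, jj, hris0⟩ := hx
  have hris : D.IsRIS C (x ∘ φ) (s ∘ φ) (t ∘ φ) (jj ∘ φ) := hSUB.1 _ _ _ _ _ _ hris0 hφ
  have hrisx : D.RIS (x ∘ φ) := ⟨C, _, _, _, hris⟩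
  have hN' : StrictMono (N ∘ φ) := hN.comp hφ
  have hC : 0 ≤ C := le_trans (norm_nonneg _) (hris.nm 0)
  choose f hf1 hf2 hf3 using fun k => inc_functional D' ((N ∘ φ) k) (R ((x ∘ φ) k))
  -- a large free weight
  obtain ⟨B, hB⟩ : ∃ B : ℝ, B = 24 * C * ‖R‖ / δ := ⟨_, rfl⟩
  obtain ⟨j, hjE, hjB⟩ := w'.inf1.exists_gt ⌈B⌉₊
  have hmm : B < mm j := by
    have h1 : B ≤ (⌈B⌉₊ : ℝ) := Nat.le_ceil B
    have h2 : ((⌈B⌉₊ : ℕ) : ℝ) < j := by exact_mod_cast hjB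
    linarith [inc_mm_ge j]
  have hmp := mm_pos j
  have hmip := mm_inv_pos j
  obtain ⟨e, he⟩ : ∃ e : ℝ, e = (mm j)⁻¹ * δ / 12 := ⟨_, rfl⟩
  have he0 : 0 < e := by rw [he]; positivity
  have hs'1 : Tendsto (fun k => min ((N ∘ φ) k) ((s ∘ φ) k)) atTop atTop := by
    have h1 : Tendsto (N ∘ φ) atTop atTop := hN'.tendsto_atTop
    have h2 : Tendsto (s ∘ φ) atTop atTop := (inc_ris_s_mono hris).tendsto_atTop
    exact tendsto_atTop.2 fun b => ((tendsto_atTop.1 h1 b).and (tendsto_atTop.1 h2 b)).mono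
      fun k hk => le_min hk.1 hk.2
  have hco : ∀ γ, Tendsto (fun k => D'.co γ (R ((x ∘ φ) k))) atTop (𝓝 0) := by
    intro γ
    exact hRN F w hR ((D'.co γ).comp R) _ hrisx
  obtain ⟨n, κ, p, η, l, hκ, hp, hK0, -, htp, hps, hgood, hwt, -, hval⟩ :=
    hCB F w' hR' j (Or.inl hjE) (fun k => R ((x ∘ φ) k)) (fun k => R ((x ∘ φ) k)) f
      (fun k => min ((N ∘ φ) k) ((s ∘ φ) k)) (t ∘ φ) hf1
      (fun k y => hf2 k _ (min_le_left _ _) y) hs'1 hco hco e he0 (j + 1) 0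
  have hris2 := hSUB.1 _ _ _ _ _ _ hris hκ
  have hj0 : j < ((jj ∘ φ) ∘ κ) 0 := by
    have h1 : κ 0 ≤ (jj ∘ φ) (κ 0) := hris.jm.le_apply
    have h2 : j + 1 ≤ (jj ∘ φ) (κ 0) := le_trans hK0 h1
    exact h2
  obtain ⟨-, hsum, -, -, hb, -, -⟩ := hRAV F w hR C _ _ _ _ j n p l hris2 hj0 hp
    (fun r hr => htp r hr)
    (fun r hr => le_trans (hps r hr) (min_le_right _ _)) hgood
  have hb' := hb (fun γ hγ => by
    have h1 : j ∈ w.L := hγ ▸ hR.wt_mem γ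
    have h2 : j ∈ w'.L := Or.inl (Or.inl hjE)
    exact Set.disjoint_left.1 hdisj h1 h2)
  obtain ⟨u, hu⟩ : ∃ u : D.X, u = ∑ r ∈ Finset.range n, (l (p r) : 𝕜) • ((x ∘ φ) ∘ κ) r :=
    ⟨_, rfl⟩
  rw [← hu] at hb'
  have hl0 : ∀ r, 0 ≤ l (p r) := fun r => hgood.1 _
  have hup : RCLike.re (D'.co η (R u)) ≤ ‖R‖ * (2 * C * (mm j)⁻¹ ^ 2) := by
    calc RCLike.re (D'.co η (R u)) ≤ ‖D'.co η (R u)‖ := RCLike.re_le_norm _
      _ ≤ ‖R u‖ := D'.norm_co_le η _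
      _ ≤ ‖R‖ * ‖u‖ := R.le_opNorm u
      _ ≤ ‖R‖ * (2 * C * (mm j)⁻¹ ^ 2) := by gcongr
  have hlow1 : ∀ r < n, (mm j)⁻¹ * δ / 12 ≤ RCLike.re (D'.co η (R (((x ∘ φ) ∘ κ) r))) := by
    intro r hr
    have h1 := (hval r hr).1
    have h2 : |RCLike.re (D'.co η (R (((x ∘ φ) ∘ κ) r)) -
        2⁻¹ * mi 𝕜 j * f (κ r) (R ((x ∘ φ) (κ r))))| ≤ e :=
      le_trans (RCLike.abs_re_le_norm _) h1
    rw [map_sub, abs_le] at h2
    have h3 : RCLike.re (2⁻¹ * mi 𝕜 j * f (κ r) (R ((x ∘ φ) (κ r)))) =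
        2⁻¹ * (mm j)⁻¹ * (‖R ((x ∘ φ) (κ r)) - D'.PX ((N ∘ φ) (κ r)) (R ((x ∘ φ) (κ r)))‖ / 3) := by
      have h4 : (2⁻¹ * mi 𝕜 j : 𝕜) = ((2⁻¹ * (mm j)⁻¹ : ℝ) : 𝕜) := by
        unfold mi
        push_cast
        ring
      rw [h4, RCLike.re_ofReal_mul, hf3]
    have h5 : δ ≤ ‖R ((x ∘ φ) (κ r)) - D'.PX ((N ∘ φ) (κ r)) (R ((x ∘ φ) (κ r)))‖ := hφ2 (κ r)
    have h6 : 2⁻¹ * (mm j)⁻¹ * (δ / 3) ≤ 2⁻¹ * (mm j)⁻¹ *
        (‖R ((x ∘ φ) (κ r)) - D'.PX ((N ∘ φ) (κ r)) (R ((x ∘ φ) (κ r)))‖ / 3) := by gcongr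
    rw [he] at h2
    linarith [h2.1]
  have hlow : (mm j)⁻¹ * δ / 12 ≤ RCLike.re (D'.co η (R u)) := by
    have h1 : RCLike.re (D'.co η (R u)) = ∑ r ∈ Finset.range n, l (p r) *
        RCLike.re (D'.co η (R (((x ∘ φ) ∘ κ) r))) := by
      rw [hu]
      exact inc_re_sum ((D'.co η).comp R) n (fun r => l (p r)) (fun r => ((x ∘ φ) ∘ κ) r)
    rw [h1]
    calc (mm j)⁻¹ * δ / 12 = ∑ r ∈ Finset.range n, l (p r) * ((mm j)⁻¹ * δ / 12) := by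
          rw [← Finset.sum_mul, hsum, one_mul]
      _ ≤ _ := Finset.sum_le_sum fun r hr =>
        mul_le_mul_of_nonneg_left (hlow1 r (Finset.mem_range.1 hr)) (hl0 r)
  have hfin : (mm j)⁻¹ * δ / 12 ≤ ‖R‖ * (2 * C * (mm j)⁻¹ ^ 2) := le_trans hlow hup
  have h7 : mm j ≤ B := by
    rw [hB, le_div_iff₀ hδ]
    have h8 := mul_le_mul_of_nonneg_left hfin (by positivity : 0 ≤ mm j ^ 2 * 12)
    have h9 : mm j ^ 2 * 12 * ((mm j)⁻¹ * δ / 12) = mm j * δ := by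
      field_simp
    have h10 : mm j ^ 2 * 12 * (‖R‖ * (2 * C * (mm j)⁻¹ ^ 2)) = 24 * C * ‖R‖ := by
      field_simp
      ring
    rw [h9, h10] at h8
    exact h8
  linarith

end

end CAL
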